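import Pool.Agent.H52.V.S8.Cov.PrimesAP
import Pool.Agent.H52.V.S8.Helper919.NonRes

/-!
Supply of inert primes.
-/

set_option autoImplicit false

namespace Pool.Agent.H393R2.DC

open Finset Filter Topology ArithmeticFunction
open Pool.Agent.Cov.PNT (pnt_residueClass)

/-- the primes used -/
noncomputable def IP (b G Q : ℕ) : Finset ℕ :=
  open Classical in
  (range (Q + 1)).filter (fun q => q.Prime ∧ 3 ≤ q ∧ (b : ZMod q) ≠ 0 ∧ (G : ZMod q) ^ (q / 2) = -1)

lemma residue_sum_le (M : ℕ) (a : ZMod M) (N : ℕ) :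
    ∑ k ∈ Icc 1 N, vonMangoldt.residueClass a k ≤
      (Chebyshev.psi N - Chebyshev.theta N) +
      (((range (N + 1)).filter (fun q : ℕ => q.Prime ∧ (q : ZMod M) = a)).card : ℝ) *
        Real.log N := by
  classical
  rw [Chebyshev.psi_sub_theta_eq_sum_not_prime, Nat.floor_natCast]
  have e0 : Icc 1 N = Ioc 0 N := by ext; simp [Finset.mem_Icc, Finset.mem_Ioc]; omega
  rw [e0]
  rw [← Finset.sum_filter_add_sum_filter_not (Ioc 0 N) (fun r => r.Prime)
    (fun k => vonMangoldt.residueClass a k), add_comm]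
  apply add_le_add
  · apply Finset.sum_le_sum
    intro r _
    exact vonMangoldt.residueClass_le _ _
  · have h1 : ∑ r ∈ (Ioc 0 N).filter (fun r => r.Prime), vonMangoldt.residueClass a r =
        ∑ r ∈ ((Ioc 0 N).filter (fun r => r.Prime)).filter (fun r : ℕ => (r : ZMod M) = a),
          Real.log r := by
      rw [Finset.sum_filter (p := fun r : ℕ => (r : ZMod M) = a)]
      apply Finset.sum_congr rfl
      intro r hr
      rw [Finset.mem_filter] at hr
      split_ifs with h
      · rw [vonMangoldt.residueClass, Set.indicator_of_mem]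
        · exact vonMangoldt_apply_prime hr.2
        · exact h
      · rw [vonMangoldt.residueClass, Set.indicator_of_notMem]
        exact h
    rw [h1]
    have h2 : ((Ioc 0 N).filter (fun r => r.Prime)).filter (fun r : ℕ => (r : ZMod M) = a) ⊆
        (range (N + 1)).filter (fun q : ℕ => q.Prime ∧ (q : ZMod M) = a) := by
      intro r hr
      rw [Finset.mem_filter, Finset.mem_filter, Finset.mem_Ioc] at hr
      rw [Finset.mem_filter, Finset.mem_range]
      exact ⟨by omega, hr.1.2, hr.2⟩
    calc ∑ r ∈ ((Ioc 0 N).filter (fun r => r.Prime)).filter (fun r : ℕ => (r : ZMod M) = a),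
          Real.log r ≤ ∑ r ∈ (range (N + 1)).filter (fun q : ℕ => q.Prime ∧ (q : ZMod M) = a),
          Real.log N := by
          refine (Finset.sum_le_sum_of_subset_of_nonneg h2 ?_).trans ?_
          · intro r hr _
            exact Real.log_natCast_nonneg _
          · apply Finset.sum_le_sum
            intro r hr
            rw [Finset.mem_filter, Finset.mem_range] at hr
            apply Real.log_le_log
            · exact_mod_cast hr.2.1.pos
            · exact_mod_cast (by omega : r ≤ N)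
      _ = _ := by rw [Finset.sum_const, nsmul_eq_mul]

theorem primes_lower (M : ℕ) [NeZero M] (a : ZMod M) (ha : IsUnit a) :
    ∃ c : ℝ, 0 < c ∧ ∃ N0 : ℕ, ∀ N : ℕ, N0 ≤ N → c * N / Real.log N ≤
      (((range (N + 1)).filter (fun q : ℕ => q.Prime ∧ (q : ZMod M) = a)).card : ℝ) := by
  have hM0 : (0 : ℝ) < (M.totient : ℝ) := by
    exact_mod_cast Nat.totient_pos.2 (Nat.pos_of_ne_zero (NeZero.ne M))
  have h1 := (pnt_residueClass (q := M) ha).comp (tendsto_natCast_atTop_atTop (R := ℝ))
  have h2 := Pool.Agent.Cov.psi_theta_tendsto.comp (tendsto_natCast_atTop_atTop (R := ℝ))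
  have h3 := h1.sub h2
  rw [sub_zero] at h3
  have h4 : (M.totient : ℝ)⁻¹ / 2 < (M.totient : ℝ)⁻¹ := by
    have : 0 < (M.totient : ℝ)⁻¹ := inv_pos.2 hM0
    linarith
  obtain ⟨N0, hN0⟩ := eventually_atTop.1 (h3.eventually_const_lt h4)
  refine ⟨(M.totient : ℝ)⁻¹ / 2, by positivity, max N0 3, fun N hN => ?_⟩
  have h5 := hN0 N (le_trans (le_max_left _ _) hN)
  have hN3 : 3 ≤ N := le_trans (le_max_right _ _) hN
  have hNpos : (0 : ℝ) < N := by positivity
  have hlog : 0 < Real.log N := Real.log_pos (by exact_mod_cast (by omega : 1 < N))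
  simp only [Function.comp, Nat.floor_natCast] at h5
  rw [← sub_div, lt_div_iff₀ hNpos] at h5
  have h6 := residue_sum_le M a N
  rw [div_le_iff₀ hlog]
  linarith

theorem inert_supply (b G : ℕ) (hb : 1 ≤ b) (hG : ¬ IsSquare G) :
    ∃ c : ℝ, 0 < c ∧ ∃ Q0 : ℕ, ∀ Q : ℕ, Q0 ≤ Q → c * Q / Real.log Q ≤ ((IP b G Q).card : ℝ) := by
  classical
  have hG0 : G ≠ 0 := by rintro rfl; exact hG ⟨0, by simp⟩
  have hGZ : ¬ IsSquare (G : ℤ) := by
    intro h
    exact hG (Int.isSquare_natCast_iff.1 h)
  obtain ⟨d, hdo, hd⟩ := Pool.Agent.Helper919.exists_jacobi_neg_one (G : ℤ) hGZ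
  have hM : 4 * G ≠ 0 := by omega
  have : NeZero (4 * G) := ⟨hM⟩
  have : NeZero d := ⟨by rintro rfl; simp at hdo⟩
  have hcop : Nat.Coprime d (4 * G) := by
    apply Nat.Coprime.mul_right
    · have : Nat.Coprime d 2 := by
        rw [Nat.coprime_comm, Nat.coprime_two_left]; exact hdo
      exact Nat.Coprime.pow_right 2 this
    · by_contra hcon
      have : jacobiSym (G : ℤ) d = 0 := by
        rw [jacobiSym.eq_zero_iff_not_coprime]
        · rw [Int.gcd_natCast_natCast]
          intro h
          exact hcon (Nat.coprime_comm.1 h)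
      rw [this] at hd
      norm_num at hd
  have hunit : IsUnit ((d : ℕ) : ZMod (4 * G)) := (ZMod.isUnit_iff_coprime d (4 * G)).2 hcop
  obtain ⟨c, hc, N0, hN0⟩ := primes_lower (4 * G) (d : ZMod (4 * G)) hunit
  -- growth
  have hgrow : Tendsto (fun N : ℕ => (N : ℝ) / Real.log N) atTop atTop := by
    have h1 : Tendsto (fun x : ℝ => Real.log x / x) atTop (𝓝 0) := by
      have := Real.isLittleO_log_id_atTop
      exact this.tendsto_div_nhds_zero
    have h2 : Tendsto (fun x : ℝ => (Real.log x / x)⁻¹) atTop atTop := by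
      apply Tendsto.inv_tendsto_nhdsGT_zero
      rw [tendsto_nhdsWithin_iff]
      refine ⟨h1, ?_⟩
      filter_upwards [eventually_gt_atTop 1] with x hx
      exact div_pos (Real.log_pos hx) (by linarith)
    have h3 := h2.comp (tendsto_natCast_atTop_atTop (R := ℝ))
    refine h3.congr fun N => ?_
    simp [Function.comp, inv_div]
  obtain ⟨N1, hN1⟩ := eventually_atTop.1 (hgrow.eventually_ge_atTop (2 * b / c))
  refine ⟨c / 2, by positivity, max N0 N1, fun Q hQ => ?_⟩
  have hQ0 := hN0 Q (le_trans (le_max_left _ _) hQ)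
  have hQ1 := hN1 Q (le_trans (le_max_right _ _) hQ)
  have hsub : (range (Q + 1)).filter (fun q : ℕ => q.Prime ∧ (q : ZMod (4 * G)) = (d : ZMod (4 * G)))
      ⊆ IP b G Q ∪ (Finset.Icc 1 b) := by
    intro q hq
    rw [Finset.mem_filter] at hq
    obtain ⟨hqr, hqp, hqd⟩ := hq
    rw [Finset.mem_union]
    by_cases hqb : (b : ZMod q) = 0
    · right
      rw [ZMod.natCast_eq_zero_iff] at hqb
      rw [Finset.mem_Icc]
      exact ⟨hqp.one_lt.le, Nat.le_of_dvd hb hqb⟩
    left
    have hmod : q % (4 * G) = d % (4 * G) := (ZMod.natCast_eq_natCast_iff' _ _ _).1 hqd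
    have hq4 : q % 2 = 1 := by
      have h1 : q % (4 * G) % 2 = q % 2 := Nat.mod_mod_of_dvd q (by
        exact Dvd.dvd.mul_right (by norm_num) G)
      have h2 : d % (4 * G) % 2 = d % 2 := Nat.mod_mod_of_dvd d (by
        exact Dvd.dvd.mul_right (by norm_num) G)
      rw [← h1, hmod, h2]
      exact Nat.odd_iff.1 hdo
    have hqo : Odd q := Nat.odd_iff.2 hq4
    have hJ : jacobiSym (G : ℤ) q = -1 := by
      have k1 := jacobiSym.mod_right (G : ℤ) hqo
      have k2 := jacobiSym.mod_right (G : ℤ) hdo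
      rw [Int.natAbs_natCast] at k1 k2
      rw [k1, hmod, ← k2]
      exact hd
    have : Fact q.Prime := ⟨hqp⟩
    have hL : legendreSym q (G : ℤ) = -1 := by
      rw [jacobiSym.legendreSym.to_jacobiSym]; exact hJ
    have hpow : (G : ZMod q) ^ (q / 2) = -1 := by
      have := legendreSym.eq_pow q (G : ℤ)
      rw [hL] at this
      push_cast at this
      exact this.symm
    unfold IP
    rw [Finset.mem_filter]
    exact ⟨hqr, hqp, by have := hqp.two_le; omega, hqb, hpow⟩
  have h1 := Finset.card_le_card hsub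
  have h2 := Finset.card_union_le (IP b G Q) (Finset.Icc 1 b)
  rw [Nat.card_Icc] at h2
  have h3 : (((range (Q + 1)).filter (fun q : ℕ => q.Prime ∧ (q : ZMod (4 * G)) =
      (d : ZMod (4 * G)))).card : ℝ) ≤ ((IP b G Q).card : ℝ) + b := by
    have : ((range (Q + 1)).filter (fun q : ℕ => q.Prime ∧ (q : ZMod (4 * G)) =
      (d : ZMod (4 * G)))).card ≤ (IP b G Q).card + b := by omega
    exact_mod_cast this
  have h4 : (b : ℝ) ≤ c / 2 * (Q / Real.log Q) := by
    rw [div_le_iff₀ hc] at hQ1
    linarith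
  have e1 : c * Q / Real.log Q = c * (Q / Real.log Q) := by ring
  have e2 : c / 2 * Q / Real.log Q = c / 2 * (Q / Real.log Q) := by ring
  rw [e1] at hQ0
  rw [e2]
  linarith

end Pool.Agent.H393R2.DC
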