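import Pool.Agent.H52.V.S8.H393R2.DC.Fin
import Pool.Agent.H52.V.S8.H393R2.DC.Primes

/-!
Asymptotic lower bound for the number of nonzero increments.
-/

set_option autoImplicit false

namespace Pool.Agent.H393R2.DC

open Finset Filter Topology

lemma V_le_Dn (b : ℕ) (γ C0 : ℝ) (U : ℕ → ℤ)
    (hU : ∀ K, |(U K : ℝ) - (b : ℝ) ^ K * γ| ≤ C0) (N : ℕ) :
    1 + (V b U N : ℝ) ≤ (1 + |(U 0 : ℝ)| + (1 + b) * C0) * (1 + ((Dn b U N).card : ℝ)) := by
  have hC0 : 0 ≤ C0 := (abs_nonneg _).trans (hU 0)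
  have hb0 : (0 : ℝ) ≤ b := Nat.cast_nonneg _
  have hstep : ∀ k, |(dlt b U (k + 1) : ℝ)| ≤ (1 + b) * C0 := by
    intro k
    have h1 := hU (k + 1)
    have h2 := hU k
    have e : (dlt b U (k + 1) : ℝ) = ((U (k + 1) : ℝ) - (b : ℝ) ^ (k + 1) * γ) -
        b * ((U k : ℝ) - (b : ℝ) ^ k * γ) := by
      simp only [dlt]; push_cast; rw [pow_succ]; ring
    rw [e]
    refine (abs_sub _ _).trans ?_
    rw [abs_mul, abs_of_nonneg hb0]
    nlinarith [mul_le_mul_of_nonneg_left h2 hb0]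
  have h1 : (V b U N : ℝ) = ∑ k ∈ range (N + 1), |(dlt b U k : ℝ)| := by
    unfold V; push_cast; rfl
  have h2 : ∑ k ∈ range (N + 1), |(dlt b U k : ℝ)| = ∑ k ∈ Dn b U N, |(dlt b U k : ℝ)| := by
    unfold Dn
    rw [Finset.sum_filter]
    apply Finset.sum_congr rfl
    intro k _
    split_ifs with h
    · rfl
    · push Not at h
      rw [h]; simp
  have h3 : ∑ k ∈ Dn b U N, |(dlt b U k : ℝ)| ≤
      ∑ k ∈ Dn b U N, (|(U 0 : ℝ)| + (1 + b) * C0) := by
    apply Finset.sum_le_sum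
    intro k _
    cases k with
    | zero =>
      simp only [dlt]
      have : 0 ≤ (1 + (b : ℝ)) * C0 := by positivity
      linarith
    | succ k =>
      have := hstep k
      have h0 := abs_nonneg (U 0 : ℝ)
      linarith
  rw [Finset.sum_const, nsmul_eq_mul] at h3
  rw [h1, h2]
  have h4 : 0 ≤ |(U 0 : ℝ)| + (1 + b) * C0 := by positivity
  have h5 : (0 : ℝ) ≤ ((Dn b U N).card : ℝ) := Nat.cast_nonneg _
  nlinarith

lemma ev_conditions (A B : ℝ) : ∃ X : ℝ, ∀ x : ℝ, X ≤ x →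
    x ^ 3 ≤ Real.exp (x / 20) ∧ A * (1 + x ^ 2) ≤ x ^ 3 ∧ 1 ≤ Real.log x ∧
      B ≤ x / (60 * Real.log x) ∧ 10 ≤ Real.exp (x / 20) ∧ 1 ≤ x := by
  have h1 : ∀ᶠ x : ℝ in atTop, x ^ 3 ≤ Real.exp (x / 20) := by
    have h := Real.tendsto_pow_mul_exp_neg_atTop_nhds_zero 3
    have h2 : Tendsto (fun x : ℝ => x / 20) atTop atTop := tendsto_id.atTop_div_const (by norm_num)
    have h3 := h.comp h2
    have h4 := h3.eventually_le_const (show (0 : ℝ) < 1 / 8000 by norm_num)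
    filter_upwards [h4] with x hx
    simp only [Function.comp] at hx
    have he : 0 < Real.exp (x / 20) := Real.exp_pos _
    rw [Real.exp_neg, ← div_eq_mul_inv, div_le_iff₀ he] at hx
    have : x ^ 3 = 8000 * (x / 20) ^ 3 := by ring
    rw [this]; linarith
  have h2 : ∀ᶠ x : ℝ in atTop, A * (1 + x ^ 2) ≤ x ^ 3 := by
    filter_upwards [eventually_ge_atTop (1 : ℝ), eventually_ge_atTop (2 * |A|)] with x hx1 hx2
    have hA := le_abs_self A
    have h3 : A * (1 + x ^ 2) ≤ |A| * (1 + x ^ 2) := mul_le_mul_of_nonneg_right hA (by positivity)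
    have h4 : 1 + x ^ 2 ≤ 2 * x ^ 2 := by nlinarith
    have h5 : |A| * (1 + x ^ 2) ≤ |A| * (2 * x ^ 2) := mul_le_mul_of_nonneg_left h4 (abs_nonneg _)
    have h6 : |A| * (2 * x ^ 2) ≤ x * x ^ 2 := by nlinarith [sq_nonneg x]
    calc A * (1 + x ^ 2) ≤ x * x ^ 2 := by linarith
      _ = x ^ 3 := by ring
  have h3 : ∀ᶠ x : ℝ in atTop, 1 ≤ Real.log x := Real.tendsto_log_atTop.eventually_ge_atTop 1
  have h4 : ∀ᶠ x : ℝ in atTop, B ≤ x / (60 * Real.log x) := by
    have h1 : Tendsto (fun x : ℝ => Real.log x / x) atTop (𝓝 0) :=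
      Real.isLittleO_log_id_atTop.tendsto_div_nhds_zero
    have h5 := h1.eventually_le_const (show (0 : ℝ) < 1 / (60 * (|B| + 1)) by positivity)
    filter_upwards [h5, eventually_gt_atTop (1 : ℝ), h3] with x hx hx1 hx3
    have hx0 : 0 < x := by linarith
    rw [div_le_div_iff₀ hx0 (by positivity)] at hx
    rw [le_div_iff₀ (by linarith)]
    have hB := le_abs_self B
    nlinarith
  have h5 : ∀ᶠ x : ℝ in atTop, 10 ≤ Real.exp (x / 20) := by
    have h2 : Tendsto (fun x : ℝ => x / 20) atTop atTop := tendsto_id.atTop_div_const (by norm_num)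
    exact (Real.tendsto_exp_atTop.comp h2).eventually_ge_atTop 10
  have h6 : ∀ᶠ x : ℝ in atTop, (1 : ℝ) ≤ x := eventually_ge_atTop 1
  obtain ⟨X, hX⟩ := eventually_atTop.1 (h1.and (h2.and (h3.and (h4.and (h5.and h6)))))
  exact ⟨X, fun x hx => hX x hx⟩

theorem main_seq (b : ℕ) (hb : 2 ≤ b) (G : ℕ) (hG : ¬ IsSquare G) (γ C0 : ℝ) (hγ : γ ^ 2 = G)
    (U : ℕ → ℤ) (hU : ∀ K, |(U K : ℝ) - (b : ℝ) ^ K * γ| ≤ C0) :
    ∃ c : ℝ, 0 < c ∧ ∃ N0 : ℕ, ∀ N : ℕ, N0 ≤ N →
      c * (Real.log N) ^ 2 / (Real.log (Real.log N)) ^ 3 ≤ ((Dn b U N).card : ℝ) := by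
  classical
  obtain ⟨C, hC1, hC⟩ := bad_card b hb G γ C0 hγ U hU
  obtain ⟨c1, hc1, Q0, hQ0⟩ := inert_supply b G (by omega) hG
  have hC0 : 0 ≤ C0 := (abs_nonneg _).trans (hU 0)
  have hb0 : (0 : ℝ) ≤ b := Nat.cast_nonneg _
  set C2 : ℝ := 1 + |(U 0 : ℝ)| + (1 + b) * C0 with hC2
  have hC21 : 1 ≤ C2 := by
    have : 0 ≤ (1 + (b : ℝ)) * C0 := by positivity
    have := abs_nonneg (U 0 : ℝ)
    linarith
  obtain ⟨X, hX⟩ := ev_conditions (C * C2) (Q0 + 3)
  obtain ⟨N1, hN1⟩ := eventually_atTop.1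
    ((Real.tendsto_log_atTop.comp (tendsto_natCast_atTop_atTop (R := ℝ))).eventually_ge_atTop X)
  set c2 : ℝ := min (c1 / 120) (1 / 20) with hc2
  have hc20 : 0 < c2 := lt_min (by positivity) (by norm_num)
  refine ⟨min 1 (c2 / 40), lt_min one_pos (by positivity), max N1 1, fun N hN => ?_⟩
  have hNX : X ≤ Real.log N := hN1 N (le_trans (le_max_left _ _) hN)
  have hNpos : 1 ≤ N := le_trans (le_max_right _ _) hN
  obtain ⟨e1, e2, e3, e4, e5, e6⟩ := hX _ hNX
  set x : ℝ := Real.log N with hx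
  set lam : ℝ := Real.log x with hlam
  set y : ℝ := Real.exp (x / 20) with hy
  set m : ℕ := (Dn b U N).card with hm
  have hx0 : 0 < x := by linarith
  have hlam0 : 0 < lam := by linarith
  have hexp : Real.exp lam = x := Real.exp_log hx0
  have hlam3 : 1 ≤ lam ^ 3 := one_le_pow₀ e3
  by_cases hcase : x ^ 2 ≤ (m : ℝ)
  · rw [div_le_iff₀ (by positivity)]
    calc min 1 (c2 / 40) * x ^ 2 ≤ 1 * x ^ 2 :=
          mul_le_mul_of_nonneg_right (min_le_left _ _) (by positivity)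
      _ ≤ (m : ℝ) := by linarith
      _ ≤ (m : ℝ) * lam ^ 3 := le_mul_of_one_le_right (Nat.cast_nonneg _) hlam3
  push Not at hcase
  set Q : ℕ := ⌊x / (60 * lam)⌋₊ with hQ
  set K : ℕ := ⌊x / (20 * lam)⌋₊ with hK
  set Z : ℕ := ⌊y ^ 10⌋₊ with hZ
  set e : ℕ := ⌊y⌋₊ with he
  have hQle : (Q : ℝ) ≤ x / (60 * lam) := Nat.floor_le (by positivity)
  have hQgt : x / (60 * lam) < Q + 1 := Nat.lt_floor_add_one _
  have hKle : (K : ℝ) ≤ x / (20 * lam) := Nat.floor_le (by positivity)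
  have hKgt : x / (20 * lam) < K + 1 := Nat.lt_floor_add_one _
  have hQQ0 : Q0 + 3 ≤ Q := by
    rw [hQ]
    apply Nat.le_floor
    push_cast
    exact e4
  have hQx : (Q : ℝ) ≤ x := by
    refine hQle.trans ?_
    apply div_le_self hx0.le
    linarith
  have hQ1 : (1 : ℝ) ≤ Q := by exact_mod_cast (by omega : 1 ≤ Q)
  have hyx : x ≤ y := by
    calc x = x ^ 1 := (pow_one x).symm
      _ ≤ x ^ 3 := pow_le_pow_right₀ e6 (by norm_num)
      _ ≤ y := e1
  have hey : (e : ℝ) ≤ y := Nat.floor_le (by linarith)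
  -- bound for the exceptional sets
  have hbase : C * (1 + (V b U N : ℝ)) ≤ x ^ 3 := by
    have h1 := V_le_Dn b γ C0 U hU N
    have h2 : 1 + ((Dn b U N).card : ℝ) ≤ 1 + x ^ 2 := by
      have := hcase.le
      linarith
    calc C * (1 + (V b U N : ℝ)) ≤ C * (C2 * (1 + ((Dn b U N).card : ℝ))) :=
          mul_le_mul_of_nonneg_left h1 (by linarith)
      _ ≤ C * (C2 * (1 + x ^ 2)) := by gcongr
      _ = C * C2 * (1 + x ^ 2) := by ring
      _ ≤ x ^ 3 := e2
  have hVnn : 0 ≤ C * (1 + (V b U N : ℝ)) := by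
    have : (0 : ℝ) ≤ (V b U N : ℝ) := by exact_mod_cast V_nonneg b U N
    have : 0 ≤ C := by linarith
    positivity
  have hx31 : 1 ≤ x ^ 3 := one_le_pow₀ e6
  have hpowQ : (x ^ 3) ^ Q ≤ y := by
    have h1 : (x ^ 3) ^ Q = Real.exp (lam * ((3 * Q : ℕ) : ℝ)) := by
      rw [← pow_mul, ← hexp, ← Real.exp_nat_mul]
      congr 1
      ring
    rw [h1, hy]
    apply Real.exp_le_exp.2
    push_cast
    have h2 : lam * (3 * (Q : ℝ)) ≤ lam * (3 * (x / (60 * lam))) := by gcongr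
    have h3 : lam * (3 * (x / (60 * lam))) = x / 20 := by field_simp; norm_num
    linarith
  have hpowK : (Q : ℝ) ^ K ≤ y := by
    calc (Q : ℝ) ^ K ≤ x ^ K := by gcongr
      _ = Real.exp (lam * (K : ℝ)) := by
          rw [← hexp, ← Real.exp_nat_mul]; congr 1; ring
      _ ≤ y := by
          rw [hy]
          apply Real.exp_le_exp.2
          have h2 : lam * (K : ℝ) ≤ lam * (x / (20 * lam)) := by gcongr
          have h3 : lam * (x / (20 * lam)) = x / 20 := by field_simp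
          linarith
  have hcardbad : ∀ q : ℕ, q ≤ Q → q % 2 = 1 → (bad b G U q N).card ≤ e := by
    intro q hqQ hq2
    rw [he]
    apply Nat.le_floor
    calc ((bad b G U q N).card : ℝ) ≤ (C * (1 + (V b U N : ℝ))) ^ q := (hC N).1 q hq2
      _ ≤ (x ^ 3) ^ q := pow_le_pow_left₀ hVnn hbase _
      _ ≤ (x ^ 3) ^ Q := pow_le_pow_right₀ hx31 hqQ
      _ ≤ y := hpowQ
  have hcardbad2 : (bad2 b G U N).card ≤ e := by
    rw [he]
    apply Nat.le_floor
    calc ((bad2 b G U N).card : ℝ) ≤ (C * (1 + (V b U N : ℝ))) ^ 2 := (hC N).2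
      _ ≤ (x ^ 3) ^ 2 := pow_le_pow_left₀ hVnn hbase _
      _ ≤ (x ^ 3) ^ Q := pow_le_pow_right₀ hx31 (by omega)
      _ ≤ y := hpowQ
  -- size of N
  have hNy : (N : ℝ) = y ^ 20 := by
    rw [hy, ← Real.exp_nat_mul]
    have : ((20 : ℕ) : ℝ) * (x / 20) = x := by push_cast; ring
    rw [this, hx, Real.exp_log (by exact_mod_cast hNpos)]
  have hy1 : 1 ≤ y := by linarith
  have hy0 : 0 ≤ y := by linarith
  have hmx : (m : ℝ) ≤ x ^ 2 := hcase.le
  have hx2y : x ^ 2 ≤ y := by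
    calc x ^ 2 ≤ x ^ 3 := pow_le_pow_right₀ e6 (by norm_num)
      _ ≤ y := e1
  have hmy : (m : ℝ) ≤ y := hmx.trans hx2y
  have hQy : (Q : ℝ) ≤ y := hQx.trans hyx
  have hZle : (Z : ℝ) ≤ y ^ 10 := Nat.floor_le (by positivity)
  have hZgt : y ^ 10 < Z + 1 := Nat.lt_floor_add_one _
  have hQK1 : (Q : ℝ) ^ (K + 1) ≤ y ^ 2 := by
    rw [pow_succ, pow_two]
    exact mul_le_mul hpowK hQy (by positivity) hy0
  have hcond1 : e + m * (e * Q ^ (K + 1)) + m * Z ≤ N := by
    have : (e : ℝ) + m * (e * (Q : ℝ) ^ (K + 1)) + m * Z ≤ N := by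
      have h1 : (m : ℝ) * (e * (Q : ℝ) ^ (K + 1)) ≤ y * (y * y ^ 2) := by gcongr
      have h2 : (m : ℝ) * Z ≤ y * y ^ 10 := by gcongr
      rw [hNy]
      have h3 : y ≤ y ^ 11 := by
        calc y = y ^ 1 := (pow_one y).symm
          _ ≤ y ^ 11 := pow_le_pow_right₀ hy1 (by norm_num)
      have h4 : y ^ 4 ≤ y ^ 11 := pow_le_pow_right₀ hy1 (by norm_num)
      have h5 : 3 * y ^ 11 ≤ y ^ 20 := by
        have h6 : y ^ 20 = y ^ 9 * y ^ 11 := by ring
        have h7 : 3 ≤ y ^ 9 := by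
          calc (3 : ℝ) ≤ y := by linarith
            _ = y ^ 1 := (pow_one y).symm
            _ ≤ y ^ 9 := pow_le_pow_right₀ hy1 (by norm_num)
        rw [h6]
        exact mul_le_mul_of_nonneg_right h7 (by positivity)
      calc (e : ℝ) + m * (e * (Q : ℝ) ^ (K + 1)) + m * Z ≤ y + y * (y * y ^ 2) + y * y ^ 10 := by
            linarith
        _ = y + y ^ 4 + y ^ 11 := by ring
        _ ≤ 3 * y ^ 11 := by linarith
        _ ≤ y ^ 20 := h5
    exact_mod_cast this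
  have hcond2 : 2 * (e * Q ^ K + 1) * Q ^ K ≤ Z / Q := by
    rw [Nat.le_div_iff_mul_le (by omega)]
    have : (2 : ℝ) * (e * (Q : ℝ) ^ K + 1) * (Q : ℝ) ^ K * Q ≤ Z := by
      have h1 : (2 : ℝ) * (e * (Q : ℝ) ^ K + 1) * (Q : ℝ) ^ K * Q ≤ 2 * (y * y + 1) * y * y := by
        gcongr
      have h2 : 2 * (y * y + 1) * y * y ≤ 4 * y ^ 4 := by
        have : 1 ≤ y * y := by nlinarith
        nlinarith [mul_nonneg hy0 hy0]
      have h3 : 4 * y ^ 4 + 1 ≤ y ^ 10 := by
        have h6 : y ^ 10 = y ^ 6 * y ^ 4 := by ring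
        have h7 : 5 ≤ y ^ 6 := by
          calc (5 : ℝ) ≤ y := by linarith
            _ = y ^ 1 := (pow_one y).symm
            _ ≤ y ^ 6 := pow_le_pow_right₀ hy1 (by norm_num)
        have h8 : 1 ≤ y ^ 4 := one_le_pow₀ hy1
        rw [h6]
        nlinarith
      linarith
    exact_mod_cast this
  -- choose the primes
  obtain ⟨QQ, hQQsub, hQQcard⟩ := Finset.exists_subset_card_eq
    (min_le_left (IP b G Q).card (K + 1))
  have hfin := finite_bound b G U N K Q Z e QQ (by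
      intro q hq
      have := hQQsub hq
      unfold IP at this
      rw [Finset.mem_filter, Finset.mem_range] at this
      exact ⟨this.2.1, this.2.2.1, by omega, this.2.2.2.1, this.2.2.2.2⟩)
    (by
      intro q hq
      have := hQQsub hq
      unfold IP at this
      rw [Finset.mem_filter, Finset.mem_range] at this
      refine hcardbad q (by omega) ?_
      rcases this.2.1.eq_two_or_odd with h | h
      · omega
      · exact h)
    hcardbad2 hcond1 hcond2 (by rw [hQQcard]; exact min_le_right _ _)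
  rw [hQQcard] at hfin
  have hfinR : (min (IP b G Q).card (K + 1) : ℕ) * ((K : ℝ) + 1) ≤ 2 * (m : ℝ) := by
    exact_mod_cast hfin
  -- lower bound for the number of primes
  have hIP := hQ0 Q (by omega)
  have hlogQ : Real.log Q ≤ lam := Real.log_le_log (by linarith) hQx
  have hlogQ0 : 0 < Real.log Q := Real.log_pos (by exact_mod_cast (by omega : 1 < Q))
  have hQbig : x / (120 * lam) ≤ Q := by
    have h1 : x / (120 * lam) = (x / (60 * lam)) / 2 := by field_simp; norm_num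
    rw [h1]
    linarith
  have hr : c2 * x / lam ^ 2 ≤ ((min (IP b G Q).card (K + 1) : ℕ) : ℝ) := by
    rw [Nat.cast_min]
    apply le_min
    · calc c2 * x / lam ^ 2 ≤ c1 / 120 * x / lam ^ 2 := by
            gcongr
            exact min_le_left _ _
        _ = c1 * (x / (120 * lam)) / lam := by field_simp
        _ ≤ c1 * Q / lam := by gcongr
        _ ≤ c1 * Q / Real.log Q := by gcongr
        _ ≤ _ := hIP
    · push_cast
      calc c2 * x / lam ^ 2 ≤ 1 / 20 * x / lam ^ 2 := by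
            gcongr
            exact min_le_right _ _
        _ ≤ 1 / 20 * x / lam := by
            apply div_le_div_of_nonneg_left (by positivity) hlam0
            nlinarith
        _ = x / (20 * lam) := by field_simp
        _ ≤ (K : ℝ) + 1 := hKgt.le
  have hfinal : c2 * x / lam ^ 2 * (x / (20 * lam)) ≤ 2 * (m : ℝ) := by
    refine le_trans ?_ hfinR
    apply mul_le_mul hr hKgt.le (by positivity) (Nat.cast_nonneg _)
  have e7 : c2 * x / lam ^ 2 * (x / (20 * lam)) = 2 * ((c2 / 40) * x ^ 2 / lam ^ 3) := by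
    field_simp; norm_num
  rw [e7] at hfinal
  calc min 1 (c2 / 40) * x ^ 2 / lam ^ 3 ≤ (c2 / 40) * x ^ 2 / lam ^ 3 := by
        gcongr
        exact min_le_right _ _
    _ ≤ (m : ℝ) := by linarith

end Pool.Agent.H393R2.DC
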