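import Pool.Agent.H52.V.S8.H393R2.DC.Main

/-!
Applications: sparse expansions and digit changes of real quadratic irrationals.
-/

set_option autoImplicit false

namespace Pool.Agent.H393R2.DC

open Finset Filter Topology

/-- nonsquare discriminant attached to a quadratic irrational -/
lemma disc (ξ : ℝ) (hξ : Irrational ξ) (A B C : ℤ) (hA : A ≠ 0)
    (hABC : (A : ℝ) * ξ ^ 2 + B * ξ + C = 0) (t : ℕ) (ht : t ≠ 0) :
    ∃ G : ℕ, ¬ IsSquare G ∧ ((t : ℝ) * (2 * A * ξ + B)) ^ 2 = G := by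
  have h1 : ((t : ℝ) * (2 * A * ξ + B)) ^ 2 = (((t : ℤ) ^ 2 * (B ^ 2 - 4 * A * C) : ℤ) : ℝ) := by
    push_cast
    linear_combination (t : ℝ) ^ 2 * 4 * A * hABC
  have h2 : (0 : ℤ) ≤ (t : ℤ) ^ 2 * (B ^ 2 - 4 * A * C) := by
    have : (0 : ℝ) ≤ (((t : ℤ) ^ 2 * (B ^ 2 - 4 * A * C) : ℤ) : ℝ) := by rw [← h1]; positivity
    exact_mod_cast this
  obtain ⟨G, hG⟩ := Int.eq_ofNat_of_zero_le h2
  refine ⟨G, ?_, by rw [h1, hG]; norm_num⟩
  rintro ⟨s, hs⟩
  have hγ : ((t : ℝ) * (2 * A * ξ + B)) ^ 2 = (s : ℝ) ^ 2 := by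
    rw [h1, hG, hs]; push_cast; ring
  have htR : (t : ℝ) ≠ 0 := by exact_mod_cast ht
  have hAR : (A : ℝ) ≠ 0 := by exact_mod_cast hA
  have hAQ : (A : ℚ) ≠ 0 := by exact_mod_cast hA
  have htQ : (t : ℚ) ≠ 0 := by exact_mod_cast ht
  apply hξ
  rcases sq_eq_sq_iff_eq_or_eq_neg.1 hγ with h | h
  · refine ⟨((s : ℚ) / t - B) / (2 * A), ?_⟩
    push_cast
    field_simp
    linarith
  · refine ⟨(-(s : ℚ) / t - B) / (2 * A), ?_⟩
    push_cast
    field_simp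
    linarith

lemma absorb (c : ℝ) (hc : 0 < c) : ∃ c' : ℝ, 0 < c' ∧ ∃ N1 : ℕ, ∀ N : ℕ, N1 ≤ N → ∀ m : ℝ,
    c * (Real.log N) ^ 2 / (Real.log (Real.log N)) ^ 3 ≤ m + 1 →
    c' * (Real.log N) ^ 2 / (Real.log (Real.log N)) ^ 3 ≤ m := by
  have h1 : Tendsto (fun x : ℝ => (Real.log x) ^ 3 / x) atTop (𝓝 0) := by
    have := isLittleO_log_rpow_atTop (show (0 : ℝ) < 1 / 3 by norm_num)
    have h2 := this.tendsto_div_nhds_zero
    have h3 := h2.pow 3
    rw [zero_pow (by norm_num)] at h3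
    refine h3.congr' ?_
    filter_upwards [eventually_gt_atTop (0 : ℝ)] with x hx
    rw [div_pow, ← Real.rpow_natCast (x ^ (1 / 3 : ℝ)) 3, ← Real.rpow_mul hx.le]
    norm_num
  have h2 : ∀ᶠ x : ℝ in atTop, 2 / c ≤ x ^ 2 / (Real.log x) ^ 3 := by
    have h3 := h1.eventually_le_const (show (0 : ℝ) < c / 2 by positivity)
    filter_upwards [h3, eventually_ge_atTop (1 : ℝ),
      Real.tendsto_log_atTop.eventually_ge_atTop 1] with x hx hx1 hx2
    have hx0 : 0 < x := by linarith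
    have hl : 0 < (Real.log x) ^ 3 := by positivity
    rw [div_le_iff₀ hx0] at hx
    rw [div_le_div_iff₀ hc hl]
    nlinarith
  have h3 := (Real.tendsto_log_atTop.comp (tendsto_natCast_atTop_atTop (R := ℝ))).eventually h2
  obtain ⟨N1, hN1⟩ := eventually_atTop.1 h3
  refine ⟨c / 2, by positivity, N1, fun N hN m hm => ?_⟩
  have h4 := hN1 N hN
  simp only [Function.comp] at h4
  rw [div_le_iff₀ hc] at h4
  have e1 : c * (Real.log N) ^ 2 / (Real.log (Real.log N)) ^ 3 =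
    (Real.log N) ^ 2 / (Real.log (Real.log N)) ^ 3 * c := by ring
  have e2 : c / 2 * (Real.log N) ^ 2 / (Real.log (Real.log N)) ^ 3 =
    (Real.log N) ^ 2 / (Real.log (Real.log N)) ^ 3 * c / 2 := by ring
  rw [e1] at hm
  rw [e2]
  linarith

/-- sparse expansions -/
theorem sparse (ξ : ℝ) (hξ : Irrational ξ) (hq : ∃ A B C : ℤ, A ≠ 0 ∧
    (A : ℝ) * ξ ^ 2 + B * ξ + C = 0) (b : ℕ) (hb : 2 ≤ b) (g : ℕ → ℤ) (M : ℤ)
    (hg : ∀ k, |g k| ≤ M) (hsum : HasSum (fun k : ℕ => (g k : ℝ) / (b : ℝ) ^ k) ξ) :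
    ∃ c : ℝ, 0 < c ∧ ∃ N0 : ℕ, ∀ N : ℕ, N0 ≤ N →
      c * (Real.log N) ^ 2 / (Real.log (Real.log N)) ^ 3 ≤
        (((range (N + 1)).filter (fun k => g k ≠ 0)).card : ℝ) := by
  obtain ⟨A, B, C, hA, hABC⟩ := hq
  obtain ⟨G, hG, hGe⟩ := disc ξ hξ A B C hA hABC 1 one_ne_zero
  rw [Nat.cast_one, one_mul] at hGe
  have hb2 : (2 : ℝ) ≤ b := by exact_mod_cast hb
  have hb0 : (0 : ℝ) < b := by linarith
  set W : ℕ → ℤ := fun n => ∑ k ∈ range (n + 1), g k * (b : ℤ) ^ (n - k) with hW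
  have hWs : ∀ n, W (n + 1) = b * W n + g (n + 1) := by
    intro n
    simp only [hW]
    rw [Finset.sum_range_succ, Finset.mul_sum]
    congr 1
    · apply Finset.sum_congr rfl
      intro k hk
      have : k ≤ n := Nat.lt_succ_iff.1 (Finset.mem_range.1 hk)
      rw [show n + 1 - k = (n - k) + 1 by omega, pow_succ]; ring
    · simp
  set U : ℕ → ℤ := fun n => 2 * A * W n + B * (b : ℤ) ^ n with hU
  have hWa : ∀ n, |(W n : ℝ) - (b : ℝ) ^ n * ξ| ≤ M := by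
    intro n
    have h1 := (hasSum_nat_add_iff' (n + 1)).2 hsum
    have h2 := h1.mul_left ((b : ℝ) ^ n)
    have h3 : (b : ℝ) ^ n * (ξ - ∑ i ∈ range (n + 1), (g i : ℝ) / (b : ℝ) ^ i) =
        (b : ℝ) ^ n * ξ - W n := by
      rw [mul_sub]
      congr 1
      simp only [hW]
      push_cast
      rw [Finset.mul_sum]
      apply Finset.sum_congr rfl
      intro k hk
      have hk' : k ≤ n := Nat.lt_succ_iff.1 (Finset.mem_range.1 hk)
      have e : (b : ℝ) ^ n = (b : ℝ) ^ (n - k) * (b : ℝ) ^ k := by rw [← pow_add]; congr 1; omega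
      rw [e]
      have : (b : ℝ) ^ k ≠ 0 := by positivity
      field_simp
    rw [h3] at h2
    have h4 := HasSum.norm_le_of_bounded h2 (hasSum_geometric_two' (M : ℝ)) (by
      intro k
      have hgk : |(g (k + (n + 1)) : ℝ)| ≤ M := by exact_mod_cast hg (k + (n + 1))
      have hM0 : (0 : ℝ) ≤ M := (abs_nonneg _).trans hgk
      have e : (b : ℝ) ^ n * ((g (k + (n + 1)) : ℝ) / (b : ℝ) ^ (k + (n + 1))) =
          (g (k + (n + 1)) : ℝ) / (b : ℝ) ^ (k + 1) := by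
        rw [show k + (n + 1) = n + (k + 1) by ring, pow_add]
        field_simp
      rw [e, Real.norm_eq_abs, abs_div, abs_of_pos (show (0 : ℝ) < (b : ℝ) ^ (k + 1) by positivity),
        div_div]
      apply div_le_div₀ hM0 hgk (by positivity)
      rw [← pow_succ']
      exact pow_le_pow_left₀ (by norm_num) hb2 _)
    rw [Real.norm_eq_abs, abs_sub_comm] at h4
    exact h4
  have hUa : ∀ n, |(U n : ℝ) - (b : ℝ) ^ n * (2 * A * ξ + B)| ≤ 2 * |(A : ℝ)| * M := by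
    intro n
    have e : (U n : ℝ) - (b : ℝ) ^ n * (2 * A * ξ + B) = 2 * A * ((W n : ℝ) - (b : ℝ) ^ n * ξ) := by
      simp only [hU]; push_cast; ring
    rw [e, abs_mul, abs_mul, abs_two]
    exact mul_le_mul_of_nonneg_left (hWa n) (by positivity)
  obtain ⟨c, hc, N0, hN0⟩ := main_seq b hb G hG (2 * A * ξ + B) (2 * |(A : ℝ)| * M) hGe U hUa
  obtain ⟨c', hc', N1, hN1⟩ := absorb c hc
  refine ⟨c', hc', max N0 N1, fun N hN => ?_⟩
  refine hN1 N (le_trans (le_max_right _ _) hN) _ ((hN0 N (le_trans (le_max_left _ _) hN)).trans ?_)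
  have hsub : Dn b U N ⊆ insert 0 ((range (N + 1)).filter (fun k => g k ≠ 0)) := by
    intro k hk
    unfold Dn at hk
    rw [Finset.mem_filter] at hk
    rw [Finset.mem_insert, Finset.mem_filter]
    cases k with
    | zero => exact Or.inl rfl
    | succ k =>
      right
      refine ⟨hk.1, fun h => hk.2 ?_⟩
      simp only [dlt, hU]
      rw [hWs k, h, pow_succ]
      ring
  have h1 := Finset.card_le_card hsub
  have h2 := Finset.card_insert_le 0 ((range (N + 1)).filter (fun k => g k ≠ 0))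
  have h3 : (Dn b U N).card ≤ ((range (N + 1)).filter (fun k => g k ≠ 0)).card + 1 := h1.trans h2
  exact_mod_cast h3

/-- the `k`-th digit after the point of `ξ` in base `b` -/
noncomputable def digit (b : ℕ) (ξ : ℝ) (k : ℕ) : ℤ := ⌊(b : ℝ) ^ k * ξ⌋ % b

lemma floor_step (b : ℕ) (hb : 2 ≤ b) (ξ : ℝ) (k : ℕ) :
    ⌊(b : ℝ) ^ (k + 1) * ξ⌋ = b * ⌊(b : ℝ) ^ k * ξ⌋ + digit b ξ (k + 1) := by
  have hb0 : (0 : ℝ) < b := by positivity
  have hbZ : (0 : ℤ) < b := by positivity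
  have h1 : (b : ℤ) * ⌊(b : ℝ) ^ k * ξ⌋ ≤ ⌊(b : ℝ) ^ (k + 1) * ξ⌋ := by
    rw [Int.le_floor]
    push_cast
    rw [pow_succ']
    have := Int.floor_le ((b : ℝ) ^ k * ξ)
    calc (b : ℝ) * (⌊(b : ℝ) ^ k * ξ⌋ : ℝ) ≤ b * ((b : ℝ) ^ k * ξ) :=
          mul_le_mul_of_nonneg_left this hb0.le
      _ = _ := by ring
  have h2 : ⌊(b : ℝ) ^ (k + 1) * ξ⌋ < (b : ℤ) * (⌊(b : ℝ) ^ k * ξ⌋ + 1) := by
    rw [Int.floor_lt]
    push_cast
    rw [pow_succ']
    have := Int.lt_floor_add_one ((b : ℝ) ^ k * ξ)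
    calc (b : ℝ) * (b : ℝ) ^ k * ξ = b * ((b : ℝ) ^ k * ξ) := by ring
      _ < b * ((⌊(b : ℝ) ^ k * ξ⌋ : ℝ) + 1) := mul_lt_mul_of_pos_left this hb0
  unfold digit
  set X := ⌊(b : ℝ) ^ (k + 1) * ξ⌋
  set Y := ⌊(b : ℝ) ^ k * ξ⌋
  have h3 : X % b = X - b * Y := by
    have h4 : X = (X - b * Y) + b * Y := by ring
    conv_lhs => rw [h4]
    rw [Int.add_mul_emod_self_left]
    exact Int.emod_eq_of_lt (by linarith) (by linarith)
  rw [h3]; ring

/-- digit changes -/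
theorem changes (ξ : ℝ) (hξ : Irrational ξ) (hq : ∃ A B C : ℤ, A ≠ 0 ∧
    (A : ℝ) * ξ ^ 2 + B * ξ + C = 0) (b : ℕ) (hb : 2 ≤ b) :
    ∃ c : ℝ, 0 < c ∧ ∃ N0 : ℕ, ∀ N : ℕ, N0 ≤ N →
      c * (Real.log N) ^ 2 / (Real.log (Real.log N)) ^ 3 ≤
        (((Icc 1 N).filter (fun k => digit b ξ k ≠ digit b ξ (k + 1))).card : ℝ) := by
  obtain ⟨A, B, C, hA, hABC⟩ := hq
  obtain ⟨G, hG, hGe⟩ := disc ξ hξ A B C hA hABC (b - 1) (by omega)
  have hbc : ((b - 1 : ℕ) : ℝ) = (b : ℝ) - 1 := by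
    rw [Nat.cast_sub (by omega)]; simp
  rw [hbc] at hGe
  have hb0 : (0 : ℝ) < b := by positivity
  set W : ℕ → ℤ := fun n => ⌊(b : ℝ) ^ n * ξ⌋ with hW
  have hWs : ∀ n, W (n + 1) = b * W n + digit b ξ (n + 1) := fun n => floor_step b hb ξ n
  set U : ℕ → ℤ := fun n => 2 * A * (W (n + 1) - W n) + (b - 1) * B * (b : ℤ) ^ n with hU
  have hUa : ∀ n, |(U n : ℝ) - (b : ℝ) ^ n * (((b : ℝ) - 1) * (2 * A * ξ + B))| ≤
      2 * |(A : ℝ)| * 1 := by
    intro n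
    have e : (U n : ℝ) - (b : ℝ) ^ n * (((b : ℝ) - 1) * (2 * A * ξ + B)) =
        2 * A * (((W (n + 1) : ℝ) - (b : ℝ) ^ (n + 1) * ξ) - ((W n : ℝ) - (b : ℝ) ^ n * ξ)) := by
      simp only [hU]; push_cast; rw [pow_succ]; ring
    rw [e, abs_mul, abs_mul, abs_two]
    apply mul_le_mul_of_nonneg_left _ (by positivity)
    have h1 := Int.floor_le ((b : ℝ) ^ (n + 1) * ξ)
    have h2 := Int.lt_floor_add_one ((b : ℝ) ^ (n + 1) * ξ)
    have h3 := Int.floor_le ((b : ℝ) ^ n * ξ)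
    have h4 := Int.lt_floor_add_one ((b : ℝ) ^ n * ξ)
    rw [abs_le]
    simp only [hW]
    constructor <;> linarith
  obtain ⟨c, hc, N0, hN0⟩ := main_seq b hb G hG (((b : ℝ) - 1) * (2 * A * ξ + B))
    (2 * |(A : ℝ)| * 1) hGe U hUa
  obtain ⟨c', hc', N1, hN1⟩ := absorb c hc
  refine ⟨c', hc', max N0 N1, fun N hN => ?_⟩
  refine hN1 N (le_trans (le_max_right _ _) hN) _ ((hN0 N (le_trans (le_max_left _ _) hN)).trans ?_)
  have hsub : Dn b U N ⊆ insert 0 ((Icc 1 N).filter (fun k => digit b ξ k ≠ digit b ξ (k + 1))) := by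
    intro k hk
    unfold Dn at hk
    rw [Finset.mem_filter, Finset.mem_range] at hk
    rw [Finset.mem_insert, Finset.mem_filter, Finset.mem_Icc]
    cases k with
    | zero => exact Or.inl rfl
    | succ k =>
      right
      refine ⟨⟨by omega, by omega⟩, fun h => hk.2 ?_⟩
      simp only [dlt, hU]
      rw [hWs (k + 1), hWs k, ← h, pow_succ]
      ring
  have h1 := Finset.card_le_card hsub
  have h2 := Finset.card_insert_le 0
    ((Icc 1 N).filter (fun k => digit b ξ k ≠ digit b ξ (k + 1)))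
  have h3 : (Dn b U N).card ≤
    ((Icc 1 N).filter (fun k => digit b ξ k ≠ digit b ξ (k + 1))).card + 1 := h1.trans h2
  exact_mod_cast h3

end Pool.Agent.H393R2.DC
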