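import Pool.Agent.H52.V.S8.H393R2.DC.Base

/-!
The exceptional sets are small, and outside them there is a dilation relation mod `q`.
-/

set_option autoImplicit false

namespace Pool.Agent.H393R2.DC

open Polynomial Finset

/-- the relation polynomial `P^q - G^((q-1)/2) P` -/
noncomputable def RP (G q : ℕ) (P : ℤ[X]) : ℤ[X] := P ^ q - C ((G : ℤ) ^ (q / 2)) * P

/-- exceptional set for `q` -/
noncomputable def bad (b G : ℕ) (U : ℕ → ℤ) (q N : ℕ) : Finset ℕ :=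
  (range (N + 1)).filter (fun R => S b (RP G q (Pol b U N)) R ≠ 0)

/-- exceptional set for the square -/
noncomputable def bad2 (b G : ℕ) (U : ℕ → ℤ) (N : ℕ) : Finset ℕ :=
  (range (N + 1)).filter (fun R => S b (Pol b U N ^ 2 - C (G : ℤ)) R ≠ 0)

lemma card_le_of_sum (b : ℕ) (hb : 2 ≤ b) (Q : ℤ[X]) (N : ℕ) :
    (((range (N + 1)).filter (fun R => S b Q R ≠ 0)).card : ℝ) ≤ (n1 Q : ℝ) +
      (b : ℝ) ^ (N + 1) * |(Q.map (Int.castRingHom ℝ)).eval (1 / (b : ℝ))| := by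
  refine le_trans ?_ (sum_abs_S_le b hb Q N)
  calc (((range (N + 1)).filter (fun R => S b Q R ≠ 0)).card : ℝ)
      = ∑ R ∈ (range (N + 1)).filter (fun R => S b Q R ≠ 0), (1 : ℝ) := by simp
    _ ≤ ∑ R ∈ (range (N + 1)).filter (fun R => S b Q R ≠ 0), (|S b Q R| : ℝ) := by
        apply Finset.sum_le_sum
        intro R hR
        rw [Finset.mem_filter] at hR
        exact_mod_cast Int.one_le_abs hR.2
    _ ≤ _ := by
        apply Finset.sum_le_sum_of_subset_of_nonneg (Finset.filter_subset _ _)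
        intro _ _ _; exact abs_nonneg _

lemma n1_sub_le (P Q : ℤ[X]) : n1 (P - Q) ≤ n1 P + n1 Q := by
  have h : n1 (-Q) = n1 Q := by
    unfold n1
    rw [Polynomial.sum_def, Polynomial.sum_def, Polynomial.support_neg]
    apply Finset.sum_congr rfl
    intro i _
    rw [Polynomial.coeff_neg, abs_neg]
  rw [sub_eq_add_neg, ← h]
  exact n1_add_le _ _

lemma pow_sub_pow_le {u t M : ℝ} (hu : |u| ≤ M) (ht : |t| ≤ M) (q : ℕ) :
    |u ^ q - t ^ q| ≤ |u - t| * (q * M ^ (q - 1)) := by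
  rcases Nat.eq_zero_or_pos q with rfl | hq
  · simp
  have hM : 0 ≤ M := (abs_nonneg u).trans hu
  rw [← Commute.mul_geom_sum₂ (Commute.all u t) q, abs_mul]
  apply mul_le_mul_of_nonneg_left _ (abs_nonneg _)
  refine (Finset.abs_sum_le_sum_abs _ _).trans ?_
  calc ∑ i ∈ range q, |u ^ i * t ^ (q - 1 - i)| ≤ ∑ i ∈ range q, M ^ (q - 1) := by
        apply Finset.sum_le_sum
        intro i hi
        rw [Finset.mem_range] at hi
        rw [abs_mul, abs_pow, abs_pow]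
        calc |u| ^ i * |t| ^ (q - 1 - i) ≤ M ^ i * M ^ (q - 1 - i) :=
              mul_le_mul (pow_le_pow_left₀ (abs_nonneg _) hu _)
                (pow_le_pow_left₀ (abs_nonneg _) ht _) (by positivity) (by positivity)
          _ = M ^ (q - 1) := by rw [← pow_add]; congr 1; omega
    _ = q * M ^ (q - 1) := by simp

/-- the exceptional sets are small -/
theorem bad_card (b : ℕ) (hb : 2 ≤ b) (G : ℕ) (γ C0 : ℝ) (hγ : γ ^ 2 = G) (U : ℕ → ℤ)
    (hU : ∀ K, |(U K : ℝ) - (b : ℝ) ^ K * γ| ≤ C0) :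
    ∃ C : ℝ, 1 ≤ C ∧ ∀ N : ℕ, (∀ q : ℕ, q % 2 = 1 →
      ((bad b G U q N).card : ℝ) ≤ (C * (1 + (V b U N : ℝ))) ^ q) ∧
      ((bad2 b G U N).card : ℝ) ≤ (C * (1 + (V b U N : ℝ))) ^ 2 := by
  have hC0 : 0 ≤ C0 := (abs_nonneg _).trans (hU 0)
  have hb1 : (2 : ℝ) ≤ b := by exact_mod_cast hb
  have hG0 : (0 : ℝ) ≤ G := Nat.cast_nonneg _
  set M : ℝ := |γ| + C0 + 1 with hM
  have hM1 : 1 ≤ M := by have := abs_nonneg γ; linarith
  set C3 : ℝ := 4 * (1 + G) * (1 + b * C0) * M with hC3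
  have hbC0 : 0 ≤ b * C0 := by positivity
  have hC31 : 1 ≤ C3 := by
    have h1 : 1 ≤ 4 * (1 + (G : ℝ)) := by linarith
    have h2 : 1 ≤ 1 + b * C0 := by linarith
    calc (1 : ℝ) = 1 * 1 * 1 := by norm_num
      _ ≤ 4 * (1 + (G : ℝ)) * (1 + b * C0) * M := by gcongr
  refine ⟨C3, hC31, fun N => ?_⟩
  set P := Pol b U N with hP
  set u := (P.map (Int.castRingHom ℝ)).eval (1 / (b : ℝ)) with hu
  have hut : |u - γ| ≤ C0 / (b : ℝ) ^ N := approx_Pol b hb U γ C0 hU N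
  have hbN : (1 : ℝ) ≤ (b : ℝ) ^ N := one_le_pow₀ (by linarith)
  have hut2 : |u - γ| ≤ C0 := hut.trans (div_le_self hC0 hbN)
  have huM : |u| ≤ M := by
    have : |u| ≤ |u - γ| + |γ| := by
      calc |u| = |(u - γ) + γ| := by ring_nf
        _ ≤ _ := abs_add_le _ _
    linarith
  have hγM : |γ| ≤ M := by linarith
  have hn1 : (n1 P : ℝ) ≤ (V b U N : ℝ) := by exact_mod_cast n1_Pol_le b U N
  have hn0 : (0 : ℝ) ≤ (n1 P : ℝ) := by exact_mod_cast n1_nonneg P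
  set W : ℝ := 1 + (V b U N : ℝ) with hW
  have hW1 : 1 ≤ W := by linarith
  have hbb : (b : ℝ) ^ (N + 1) * (C0 / (b : ℝ) ^ N) = b * C0 := by
    rw [pow_succ]; field_simp
  constructor
  · intro q hq
    have hq1 : 1 ≤ q := by omega
    have h1 := card_le_of_sum b hb (RP G q P) N
    -- evaluation
    have hev : ((RP G q P).map (Int.castRingHom ℝ)).eval (1 / (b : ℝ)) =
        u ^ q - (G : ℝ) ^ (q / 2) * u := by
      simp [RP, hu]
    have hgq : γ ^ q = (G : ℝ) ^ (q / 2) * γ := by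
      rw [← hγ, ← pow_mul, ← pow_succ]; congr 1; omega
    have hevb : |((RP G q P).map (Int.castRingHom ℝ)).eval (1 / (b : ℝ))| ≤
        (C0 / (b : ℝ) ^ N) * (q * M ^ (q - 1) + (G : ℝ) ^ (q / 2)) := by
      rw [hev]
      have e : u ^ q - (G : ℝ) ^ (q / 2) * u = (u ^ q - γ ^ q) - (G : ℝ) ^ (q / 2) * (u - γ) := by
        rw [hgq]; ring
      rw [e]
      calc |u ^ q - γ ^ q - (G : ℝ) ^ (q / 2) * (u - γ)|
          ≤ |u ^ q - γ ^ q| + |(G : ℝ) ^ (q / 2) * (u - γ)| := abs_sub _ _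
        _ ≤ |u - γ| * (q * M ^ (q - 1)) + (G : ℝ) ^ (q / 2) * |u - γ| := by
            rw [abs_mul, abs_of_nonneg (show (0:ℝ) ≤ (G : ℝ) ^ (q / 2) by positivity)]
            have := pow_sub_pow_le huM hγM q
            linarith
        _ = |u - γ| * (q * M ^ (q - 1) + (G : ℝ) ^ (q / 2)) := by ring
        _ ≤ _ := by
            apply mul_le_mul_of_nonneg_right hut
            positivity
    have h2 : (b : ℝ) ^ (N + 1) * |((RP G q P).map (Int.castRingHom ℝ)).eval (1 / (b : ℝ))| ≤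
        b * C0 * (q * M ^ (q - 1) + (G : ℝ) ^ (q / 2)) := by
      calc (b : ℝ) ^ (N + 1) * |((RP G q P).map (Int.castRingHom ℝ)).eval (1 / (b : ℝ))|
          ≤ (b : ℝ) ^ (N + 1) * ((C0 / (b : ℝ) ^ N) * (q * M ^ (q - 1) + (G : ℝ) ^ (q / 2))) :=
            mul_le_mul_of_nonneg_left hevb (by positivity)
        _ = _ := by rw [← mul_assoc, hbb]
    have h3 : (n1 (RP G q P) : ℝ) ≤ W ^ q + (G : ℝ) ^ (q / 2) * W := by
      have e1 : n1 (RP G q P) ≤ (1 + n1 P) ^ q + (G : ℤ) ^ (q / 2) * n1 P := by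
        unfold RP
        refine (n1_sub_le _ _).trans ?_
        refine add_le_add (n1_pow_le _ _) ?_
        refine (n1_mul_le _ _).trans ?_
        rw [n1_C, abs_of_nonneg (show (0:ℤ) ≤ (G : ℤ) ^ (q / 2) by positivity)]
      have e2 : (n1 (RP G q P) : ℝ) ≤ (1 + (n1 P : ℝ)) ^ q + (G : ℝ) ^ (q / 2) * (n1 P : ℝ) := by
        exact_mod_cast e1
      refine e2.trans (add_le_add ?_ ?_)
      · exact pow_le_pow_left₀ (by linarith) (by linarith) _
      · apply mul_le_mul_of_nonneg_left (by linarith) (by positivity)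
    have hWq : W ≤ W ^ q := by
      calc W = W ^ 1 := (pow_one W).symm
        _ ≤ W ^ q := pow_le_pow_right₀ hW1 hq1
    have hWq1 : 1 ≤ W ^ q := one_le_pow₀ hW1
    have hGq : (G : ℝ) ^ (q / 2) ≤ (1 + (G : ℝ)) ^ q := by
      calc (G : ℝ) ^ (q / 2) ≤ (1 + (G : ℝ)) ^ (q / 2) :=
            pow_le_pow_left₀ hG0 (by linarith) _
        _ ≤ (1 + (G : ℝ)) ^ q := pow_le_pow_right₀ (by linarith) (by omega)
    have hMq : M ^ (q - 1) ≤ M ^ q := pow_le_pow_right₀ hM1 (by omega)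
    have hq2 : (q : ℝ) ≤ 2 ^ q := by
      have : q ≤ 2 ^ q := Nat.lt_two_pow_self.le
      exact_mod_cast this
    have h4q : (4 : ℝ) ≤ 4 ^ q := by
      calc (4:ℝ) = 4 ^ 1 := (pow_one _).symm
        _ ≤ 4 ^ q := pow_le_pow_right₀ (by norm_num) hq1
    have hMq1 : 1 ≤ M ^ q := one_le_pow₀ hM1
    have hGq1 : 1 ≤ (1 + (G : ℝ)) ^ q := one_le_pow₀ (by linarith)
    have hBq : 1 + b * C0 ≤ (1 + b * C0) ^ q := by
      calc 1 + b * C0 = (1 + b * C0) ^ 1 := (pow_one _).symm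
        _ ≤ _ := pow_le_pow_right₀ (by linarith) hq1
    -- assemble
    have hX : (C3 * W) ^ q = 4 ^ q * (1 + (G : ℝ)) ^ q * (1 + b * C0) ^ q * M ^ q * W ^ q := by
      rw [hC3]; simp only [mul_pow]
    have t1 : W ^ q ≤ (1 + (G : ℝ)) ^ q * M ^ q * W ^ q := by
      have : 1 ≤ (1 + (G : ℝ)) ^ q * M ^ q := by
        calc (1:ℝ) = 1 * 1 := by norm_num
          _ ≤ _ := by gcongr
      nlinarith
    have t2 : (G : ℝ) ^ (q / 2) * W ≤ (1 + (G : ℝ)) ^ q * M ^ q * W ^ q := by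
      calc (G : ℝ) ^ (q / 2) * W ≤ (1 + (G : ℝ)) ^ q * W ^ q := by gcongr
        _ ≤ (1 + (G : ℝ)) ^ q * W ^ q * M ^ q := by
            apply le_mul_of_one_le_right (by positivity) hMq1
        _ = _ := by ring
    have t3 : q * M ^ (q - 1) + (G : ℝ) ^ (q / 2) ≤ (2 ^ q + 1) * ((1 + (G : ℝ)) ^ q * M ^ q) := by
      have a1 : q * M ^ (q - 1) ≤ 2 ^ q * ((1 + (G : ℝ)) ^ q * M ^ q) := by
        calc q * M ^ (q - 1) ≤ 2 ^ q * M ^ q := by gcongr
          _ ≤ 2 ^ q * ((1 + (G : ℝ)) ^ q * M ^ q) := by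
              apply mul_le_mul_of_nonneg_left _ (by positivity)
              exact le_mul_of_one_le_left (by positivity) hGq1
      have a2 : (G : ℝ) ^ (q / 2) ≤ (1 + (G : ℝ)) ^ q * M ^ q :=
        hGq.trans (le_mul_of_one_le_right (by positivity) hMq1)
      linarith
    have h2q : (2 : ℝ) ^ q + 1 + 2 ≤ 4 ^ q + 1 := by
      have : (4 : ℝ) ^ q = 2 ^ q * 2 ^ q := by rw [← mul_pow]; norm_num
      have h22 : (2 : ℝ) ≤ 2 ^ q := by
        calc (2:ℝ) = 2 ^ 1 := (pow_one _).symm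
          _ ≤ 2 ^ q := pow_le_pow_right₀ (by norm_num) hq1
      nlinarith
    set Y : ℝ := (1 + (G : ℝ)) ^ q * M ^ q with hY
    have hY1 : 1 ≤ Y := by
      calc (1:ℝ) = 1 * 1 := by norm_num
        _ ≤ _ := by rw [hY]; gcongr
    have h5 : ((bad b G U q N).card : ℝ) ≤ 2 * (Y * W ^ q) + b * C0 * ((2 ^ q + 1) * Y) := by
      have h6 : ((bad b G U q N).card : ℝ) ≤ (n1 (RP G q P) : ℝ) +
          (b : ℝ) ^ (N + 1) * |((RP G q P).map (Int.castRingHom ℝ)).eval (1 / (b : ℝ))| := h1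
      have h7 : b * C0 * (q * M ^ (q - 1) + (G : ℝ) ^ (q / 2)) ≤ b * C0 * ((2 ^ q + 1) * Y) :=
        mul_le_mul_of_nonneg_left t3 hbC0
      linarith
    have h8 : b * C0 * ((2 ^ q + 1) * Y) ≤ b * C0 * (4 ^ q * (Y * W ^ q)) := by
      apply mul_le_mul_of_nonneg_left _ hbC0
      have a3 : (2 : ℝ) ^ q + 1 ≤ 4 ^ q := by linarith
      calc (2 ^ q + 1) * Y ≤ 4 ^ q * Y := by gcongr
        _ ≤ 4 ^ q * (Y * W ^ q) := by
            apply mul_le_mul_of_nonneg_left _ (by positivity)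
            exact le_mul_of_one_le_right (by positivity) hWq1
    have h9 : 2 * (Y * W ^ q) ≤ 4 ^ q * (Y * W ^ q) := by
      apply mul_le_mul_of_nonneg_right _ (by positivity)
      linarith
    calc ((bad b G U q N).card : ℝ) ≤ 4 ^ q * (Y * W ^ q) + b * C0 * (4 ^ q * (Y * W ^ q)) := by
          linarith
      _ = (1 + b * C0) * (4 ^ q * (Y * W ^ q)) := by ring
      _ ≤ (1 + b * C0) ^ q * (4 ^ q * (Y * W ^ q)) := by gcongr
      _ = (C3 * W) ^ q := by rw [hX, hY]; ring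
  · have h1 := card_le_of_sum b hb (P ^ 2 - C (G : ℤ)) N
    have hev : ((P ^ 2 - C (G : ℤ)).map (Int.castRingHom ℝ)).eval (1 / (b : ℝ)) = u ^ 2 - γ ^ 2 := by
      rw [hγ]; simp [hu]
    have hevb : |((P ^ 2 - C (G : ℤ)).map (Int.castRingHom ℝ)).eval (1 / (b : ℝ))| ≤
        (C0 / (b : ℝ) ^ N) * (2 * M) := by
      rw [hev]
      have := pow_sub_pow_le huM hγM 2
      calc |u ^ 2 - γ ^ 2| ≤ |u - γ| * ((2 : ℕ) * M ^ (2 - 1)) := this
        _ = |u - γ| * (2 * M) := by norm_num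
        _ ≤ _ := by
            apply mul_le_mul_of_nonneg_right hut
            positivity
    have h2 : (b : ℝ) ^ (N + 1) * |((P ^ 2 - C (G : ℤ)).map (Int.castRingHom ℝ)).eval (1 / (b : ℝ))| ≤
        b * C0 * (2 * M) := by
      calc _ ≤ (b : ℝ) ^ (N + 1) * ((C0 / (b : ℝ) ^ N) * (2 * M)) :=
            mul_le_mul_of_nonneg_left hevb (by positivity)
        _ = _ := by rw [← mul_assoc, hbb]
    have h3 : (n1 (P ^ 2 - C (G : ℤ)) : ℝ) ≤ W ^ 2 + G := by
      have e1 : n1 (P ^ 2 - C (G : ℤ)) ≤ (1 + n1 P) ^ 2 + (G : ℤ) := by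
        refine (n1_sub_le _ _).trans ?_
        refine add_le_add (n1_pow_le _ _) ?_
        rw [n1_C, abs_of_nonneg (show (0:ℤ) ≤ (G : ℤ) by positivity)]
      have e2 : (n1 (P ^ 2 - C (G : ℤ)) : ℝ) ≤ (1 + (n1 P : ℝ)) ^ 2 + (G : ℝ) := by
        exact_mod_cast e1
      refine e2.trans (add_le_add ?_ le_rfl)
      exact pow_le_pow_left₀ (by linarith) (by linarith) _
    have h4 : ((bad2 b G U N).card : ℝ) ≤ W ^ 2 + G + b * C0 * (2 * M) := by
      have h6 : ((bad2 b G U N).card : ℝ) ≤ (n1 (P ^ 2 - C (G : ℤ)) : ℝ) +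
          (b : ℝ) ^ (N + 1) * |((P ^ 2 - C (G : ℤ)).map (Int.castRingHom ℝ)).eval (1 / (b : ℝ))| := h1
      linarith
    have hW2 : 1 ≤ W ^ 2 := one_le_pow₀ hW1
    have h5 : W ^ 2 + G + b * C0 * (2 * M) ≤ C3 * W ^ 2 := by
      have a1 : 1 + (G : ℝ) + b * C0 * (2 * M) ≤ C3 := by
        rw [hC3]
        have p1 : 0 ≤ (G : ℝ) * (b * C0) := by positivity
        have p2 : 0 ≤ (G : ℝ) * (b * C0) * M := by positivity
        have p3 : 0 ≤ (G : ℝ) * (M - 1) := by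
          apply mul_nonneg hG0; linarith
        have p4 : 0 ≤ (b * C0) * (M - 1) := by
          apply mul_nonneg hbC0; linarith
        nlinarith
      calc W ^ 2 + G + b * C0 * (2 * M) ≤ W ^ 2 + G * W ^ 2 + b * C0 * (2 * M) * W ^ 2 := by
            have a2 : (G : ℝ) ≤ G * W ^ 2 := le_mul_of_one_le_right hG0 hW2
            have a3 : b * C0 * (2 * M) ≤ b * C0 * (2 * M) * W ^ 2 :=
              le_mul_of_one_le_right (by positivity) hW2
            linarith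
        _ = (1 + G + b * C0 * (2 * M)) * W ^ 2 := by ring
        _ ≤ _ := mul_le_mul_of_nonneg_right a1 (by positivity)
    calc ((bad2 b G U N).card : ℝ) ≤ C3 * W ^ 2 := h4.trans h5
      _ ≤ C3 ^ 2 * W ^ 2 := by
          apply mul_le_mul_of_nonneg_right _ (by positivity)
          nlinarith
      _ = _ := by ring

end Pool.Agent.H393R2.DC
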